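import Pool.Agent.H689Z.UBV.Red

set_option autoImplicit false

/-! Recognising unit bar visibility graphs is NP-complete. -/

namespace Pool.Agent.Results.MP_ec9af3_lc.NPComplete

open Pool.Agent.NPC Pool.Agent.H689Z.UBV

theorem result : InNPP UBVG ∧ NPHardP UBVG := ⟨inNPP_UBVG, npHard_UBVG⟩

end Pool.Agent.Results.MP_ec9af3_lc.NPComplete
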